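import Mathlib

set_option autoImplicit false

namespace Pool.Agent.Results.MP_f6a359_co.PathCoverCounterexample

/-- `S` is a total dominating set of `G`: every vertex has a neighbour in `S`. -/
def IsTotalDominating {V : Type*} (G : SimpleGraph V) (S : Finset V) : Prop :=
  ∀ v : V, ∃ u ∈ S, G.Adj v u

/-- The total domination number: the minimum size of a total dominating set. -/
noncomputable def gammaT {V : Type*} (G : SimpleGraph V) : ℕ :=
  sInf {k | ∃ S : Finset V, IsTotalDominating G S ∧ S.card = k}

/-- A path cover of `G`, given by the vertex sets of its paths: a partition of the vertex set in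
which every part is the set of vertices of a path of `G` (a single vertex is a path). -/
def IsPathCover {V : Type*} [Fintype V] [DecidableEq V] (G : SimpleGraph V)
    (P : Finpartition (Finset.univ : Finset V)) : Prop :=
  ∀ X ∈ P.parts, ∃ (u v : V) (p : G.Walk u v), p.IsPath ∧ ∀ x, x ∈ p.support ↔ x ∈ X

/-- The path covering number: the minimum number of paths in a path cover. -/
noncomputable def pathCoverNumber {V : Type*} [Fintype V] [DecidableEq V] (G : SimpleGraph V) :
    ℕ :=
  sInf {k | ∃ P : Finpartition (Finset.univ : Finset V), IsPathCover G P ∧ P.parts.card = k}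

/-- The vertices of the counterexample: a centre `none` and `t` blocks of `2t+1` vertices. -/
abbrev Vert (t : ℕ) := Option (Fin t × Fin (2 * t + 1))

/-- Adjacency: every block is a complete graph minus the edge between its vertices `0` and `1`,
and the centre is joined to the vertices `0` and `1` of every block. -/
def adj (t : ℕ) : Vert t → Vert t → Prop
  | none, none => False
  | none, some (_, x) => x.val ≤ 1
  | some (_, x), none => x.val ≤ 1
  | some (i, x), some (j, y) => i = j ∧ x ≠ y ∧ ¬ (x.val ≤ 1 ∧ y.val ≤ 1)

instance (t : ℕ) : DecidableRel (adj t) := fun a b => by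
  rcases a with _ | ⟨i, x⟩ <;> rcases b with _ | ⟨j, y⟩ <;> simp only [adj] <;> infer_instance

/-- The counterexample graph. -/
def graph (t : ℕ) : SimpleGraph (Vert t) where
  Adj := adj t
  symm := ⟨by
    rintro (_ | ⟨i, x⟩) (_ | ⟨j, y⟩) h
    · exact h
    · exact h
    · exact h
    · exact ⟨h.1.symm, h.2.1.symm, fun h' => h.2.2 ⟨h'.2, h'.1⟩⟩⟩
  loopless := ⟨by
    rintro (_ | ⟨i, x⟩) h
    · exact h
    · exact h.2.1 rfl⟩

instance (t : ℕ) : DecidableRel (graph t).Adj := inferInstanceAs (DecidableRel (adj t))

/-- The block of a vertex (`none` for the centre). -/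
def blk (t : ℕ) : Vert t → Option (Fin t) := Option.map Prod.fst

theorem blk_eq_of_adj (t : ℕ) {a b : Vert t} (h : (graph t).Adj a b) (ha : a ≠ none)
    (hb : b ≠ none) : blk t a = blk t b := by
  rcases a with _ | ⟨i, x⟩
  · exact absurd rfl ha
  · rcases b with _ | ⟨j, y⟩
    · exact absurd rfl hb
    · have : i = j := h.1
      simp [blk, this]

/-- A walk avoiding the centre stays in one block. -/
theorem walk_avoid (t : ℕ) {u v : Vert t} (p : (graph t).Walk u v) (h : none ∉ p.support) :
    ∀ x ∈ p.support, blk t x = blk t u := by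
  induction p with
  | nil => intro x hx; simp at hx; rw [hx]
  | @cons a b c hab q ih =>
    intro x hx
    rw [SimpleGraph.Walk.support_cons, List.mem_cons, not_or] at h
    have hb : b ≠ none := fun hb => h.2 (hb ▸ q.start_mem_support)
    rw [SimpleGraph.Walk.support_cons, List.mem_cons] at hx
    rcases hx with rfl | hx
    · rfl
    · rw [ih h.2 x hx]
      exact (blk_eq_of_adj t hab (Ne.symm h.1) hb).symm

/-- A path starting at the centre stays in one block. -/
theorem path_from_centre (t : ℕ) {v : Vert t} (p : (graph t).Walk none v) (hp : p.IsPath) :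
    ∃ c : Option (Fin t), ∀ x ∈ p.support, x = none ∨ blk t x = c := by
  cases p with
  | nil => exact ⟨none, fun x hx => Or.inl (by simpa using hx)⟩
  | @cons _ b _ hab q =>
    rw [SimpleGraph.Walk.cons_isPath_iff] at hp
    refine ⟨blk t b, fun x hx => ?_⟩
    rw [SimpleGraph.Walk.support_cons, List.mem_cons] at hx
    rcases hx with rfl | hx
    · exact Or.inl rfl
    · exact Or.inr (walk_avoid t q hp.2 x hx)

/-- A path through the centre meets at most two blocks. -/
theorem path_through_centre (t : ℕ) {u v : Vert t} (p : (graph t).Walk u v) (hp : p.IsPath)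
    (h : none ∈ p.support) :
    ∃ c d : Option (Fin t), ∀ x ∈ p.support, x = none ∨ blk t x = c ∨ blk t x = d := by
  obtain ⟨c, hc⟩ := path_from_centre t (p.takeUntil none h).reverse
    ((hp.takeUntil h).reverse)
  obtain ⟨d, hd⟩ := path_from_centre t (p.dropUntil none h) (hp.dropUntil h)
  refine ⟨c, d, fun x hx => ?_⟩
  rw [← SimpleGraph.Walk.take_spec p h, SimpleGraph.Walk.mem_support_append_iff] at hx
  rcases hx with hx | hx
  · rcases hc x (by simpa using hx) with h1 | h1
    · exact Or.inl h1
    · exact Or.inr (Or.inl h1)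
  · rcases hd x hx with h1 | h1
    · exact Or.inl h1
    · exact Or.inr (Or.inr h1)

/-- Every path cover has at least `t - 1` paths. -/
theorem le_card_cover (t : ℕ) (ht : 1 ≤ t) (P : Finpartition (Finset.univ : Finset (Vert t)))
    (hP : IsPathCover (graph t) P) : t - 1 ≤ P.parts.card := by
  classical
  obtain ⟨X₀, hX₀, hn⟩ := (P.existsUnique_mem (Finset.mem_univ (none : Vert t))).exists
  -- blocks met by the part of the centre
  obtain ⟨c, d, hcd⟩ : ∃ c d : Option (Fin t), ∀ x ∈ X₀, x = none ∨ blk t x = c ∨ blk t x = d := by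
    obtain ⟨u, v, p, hp, hx⟩ := hP X₀ hX₀
    obtain ⟨c, d, h⟩ := path_through_centre t p hp ((hx none).mpr hn)
    exact ⟨c, d, fun x hx' => h x ((hx x).mpr hx')⟩
  -- the other parts meet one block each
  have hone : ∀ X ∈ P.parts.erase X₀, ∃ c : Option (Fin t), ∀ x ∈ X, blk t x = c := by
    intro X hX
    obtain ⟨hne, hX⟩ := Finset.mem_erase.mp hX
    obtain ⟨u, v, p, hp, hx⟩ := hP X hX
    refine ⟨blk t u, fun x hx' => walk_avoid t p ?_ x ((hx x).mpr hx')⟩
    intro hnone
    exact hne (P.eq_of_mem_parts hX hX₀ ((hx none).mp hnone) hn)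
  choose! g hg using hone
  have hsub : (Finset.univ : Finset (Fin t)).image some ⊆
      (P.parts.erase X₀).image g ∪ {c, d} := by
    intro o ho
    obtain ⟨i, _, rfl⟩ := Finset.mem_image.mp ho
    obtain ⟨X, hX, hiX⟩ := (P.existsUnique_mem
      (Finset.mem_univ (some (i, (0 : Fin (2 * t + 1))) : Vert t))).exists
    have hblk : blk t (some (i, (0 : Fin (2 * t + 1)))) = some i := rfl
    by_cases hXX : X = X₀
    · subst hXX
      rcases hcd _ hiX with h | h | h
      · cases h
      · rw [hblk] at h; simp [h]
      · rw [hblk] at h; simp [h]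
    · apply Finset.mem_union_left
      rw [Finset.mem_image]
      refine ⟨X, Finset.mem_erase.mpr ⟨hXX, hX⟩, ?_⟩
      rw [← hg X (Finset.mem_erase.mpr ⟨hXX, hX⟩) _ hiX, hblk]
  have h1 := Finset.card_le_card hsub
  rw [Finset.card_image_of_injective _ (Option.some_injective _), Finset.card_univ,
    Fintype.card_fin] at h1
  have h2 := Finset.card_union_le ((P.parts.erase X₀).image g) {c, d}
  have h3 : ((P.parts.erase X₀).image g).card ≤ P.parts.card - 1 := by
    rw [← Finset.card_erase_of_mem hX₀]
    exact Finset.card_image_le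
  have h4 : ({c, d} : Finset (Option (Fin t))).card ≤ 2 := Finset.card_le_two
  have h5 : 0 < P.parts.card := Finset.card_pos.mpr ⟨X₀, hX₀⟩
  omega

theorem exists_cover {V : Type*} [Fintype V] [DecidableEq V] (G : SimpleGraph V) :
    ∃ P : Finpartition (Finset.univ : Finset V), IsPathCover G P := by
  refine ⟨⊥, fun X hX => ?_⟩
  rw [Finpartition.mem_bot_iff] at hX
  obtain ⟨a, _, rfl⟩ := hX
  exact ⟨a, a, .nil, SimpleGraph.Walk.IsPath.nil, fun x => by simp⟩

theorem le_pathCoverNumber (t : ℕ) (ht : 1 ≤ t) : t - 1 ≤ pathCoverNumber (graph t) := by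
  obtain ⟨P, hP⟩ := exists_cover (graph t)
  refine le_csInf ⟨_, P, hP, rfl⟩ ?_
  rintro k ⟨Q, hQ, rfl⟩
  exact le_card_cover t ht Q hQ

theorem gammaT_le (t : ℕ) (ht : 1 ≤ t) : gammaT (graph t) ≤ t + 1 := by
  classical
  let S : Finset (Vert t) := insert none (Finset.univ.image fun i : Fin t => some (i, 0))
  have hS : IsTotalDominating (graph t) S := by
    rintro (_ | ⟨i, x⟩)
    · exact ⟨some (⟨0, ht⟩, 0), by simp [S], by simp [graph, adj]⟩
    · by_cases hx : x.val ≤ 1
      · exact ⟨none, by simp [S], hx⟩
      · refine ⟨some (i, 0), by simp [S], ?_⟩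
        refine ⟨rfl, ?_, fun h => hx h.1⟩
        rintro rfl
        simp at hx
  have hcard : S.card = t + 1 := by
    rw [Finset.card_insert_of_notMem (by simp), Finset.card_image_of_injective]
    · simp
    · intro a b hab
      simpa using hab
  exact Nat.sInf_le ⟨S, hS, hcard⟩

theorem graph_connected (t : ℕ) : (graph t).Connected := by
  have h : ∀ a : Vert t, (graph t).Reachable a none := by
    rintro (_ | ⟨i, x⟩)
    · exact SimpleGraph.Reachable.refl _
    · by_cases hx : x.val ≤ 1
      · exact SimpleGraph.Adj.reachable (G := graph t) hx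
      · have h1 : (graph t).Adj (some (i, x)) (some (i, 0)) := by
          refine ⟨rfl, ?_, fun h => hx h.1⟩
          rintro rfl
          simp at hx
        have h2 : (graph t).Adj (some (i, 0)) none := by simp [graph, adj]
        exact h1.reachable.trans h2.reachable
  have : Nonempty (Vert t) := ⟨none⟩
  exact ⟨fun a b => (h a).trans (h b).symm⟩

theorem graph_regular (t : ℕ) (ht : 1 ≤ t) : (graph t).IsRegularOfDegree (2 * t) := by
  classical
  have h01 : (0 : Fin (2 * t + 1)) ≠ 1 := by
    intro h
    have := congrArg Fin.val h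
    rw [Fin.val_zero, Fin.val_one'] at this
    rw [Nat.mod_eq_of_lt (by omega)] at this
    omega
  have hle1 : ∀ x : Fin (2 * t + 1), x.val ≤ 1 ↔ x = 0 ∨ x = 1 := by
    intro x
    have hv1 : ((1 : Fin (2 * t + 1)) : ℕ) = 1 := by
      rw [Fin.val_one']
      exact Nat.mod_eq_of_lt (by omega)
    constructor
    · intro h
      rcases Nat.le_one_iff_eq_zero_or_eq_one.mp h with h | h
      · left; exact Fin.ext (by simpa using h)
      · right; exact Fin.ext (by rw [hv1]; exact h)
    · rintro (rfl | rfl)
      · simp
      · rw [hv1]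
  rintro (_ | ⟨i, x⟩)
  · rw [← SimpleGraph.card_neighborFinset_eq_degree]
    have : (graph t).neighborFinset none =
        ((Finset.univ : Finset (Fin t)) ×ˢ ({0, 1} : Finset (Fin (2 * t + 1)))).map
          Function.Embedding.some := by
      ext a
      rw [SimpleGraph.mem_neighborFinset]
      rcases a with _ | ⟨j, y⟩
      · simp [graph, adj]
      · change y.val ≤ 1 ↔ _
        rw [hle1]
        simp
    rw [this, Finset.card_map, Finset.card_product, Finset.card_pair h01]
    simp [mul_comm]
  · rw [← SimpleGraph.card_neighborFinset_eq_degree]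
    by_cases hx : x.val ≤ 1
    · have : (graph t).neighborFinset (some (i, x)) =
          insert none (((Finset.univ : Finset (Fin (2 * t + 1))) \ {0, 1}).map
            ⟨fun y => some (i, y), fun a b hab => by simpa using hab⟩) := by
        ext a
        rw [SimpleGraph.mem_neighborFinset]
        rcases a with _ | ⟨j, y⟩
        · simp [graph, adj, hx]
        · change (i = j ∧ x ≠ y ∧ ¬ (x.val ≤ 1 ∧ y.val ≤ 1)) ↔ _
          simp only [hx, true_and, Finset.mem_insert, reduceCtorEq, Finset.mem_map,
            Finset.mem_sdiff, Finset.mem_univ, Finset.mem_singleton, Function.Embedding.coeFn_mk,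
            Option.some.injEq, Prod.mk.injEq, false_or]
          constructor
          · rintro ⟨rfl, _, h2⟩
            rw [hle1] at h2
            exact ⟨y, by simpa using h2, by simp⟩
          · rintro ⟨z, hz, hzy⟩
            obtain ⟨rfl, rfl⟩ : i = j ∧ z = y := by simpa using hzy
            have hz' : ¬ (z.val ≤ 1) := by
              rw [hle1]
              simpa using hz
            exact ⟨rfl, fun h => hz' (h ▸ hx), hz'⟩
      rw [this, Finset.card_insert_of_notMem (by simp), Finset.card_map,
        Finset.card_sdiff_of_subset (Finset.subset_univ _), Finset.card_pair h01, Finset.card_univ,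
        Fintype.card_fin]
      omega
    · have : (graph t).neighborFinset (some (i, x)) =
          ((Finset.univ : Finset (Fin (2 * t + 1))) \ {x}).map
            ⟨fun y => some (i, y), fun a b hab => by simpa using hab⟩ := by
        ext a
        rw [SimpleGraph.mem_neighborFinset]
        rcases a with _ | ⟨j, y⟩
        · simp [graph, adj, hx]
        · change (i = j ∧ x ≠ y ∧ ¬ (x.val ≤ 1 ∧ y.val ≤ 1)) ↔ _
          simp only [hx, false_and, not_false_eq_true, and_true, Finset.mem_map,
            Finset.mem_sdiff, Finset.mem_univ, Finset.mem_singleton, Function.Embedding.coeFn_mk,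
            Option.some.injEq, Prod.mk.injEq, true_and]
          constructor
          · rintro ⟨rfl, h2⟩
            exact ⟨y, Ne.symm h2, by simp⟩
          · rintro ⟨z, hz, hzy⟩
            obtain ⟨rfl, rfl⟩ : i = j ∧ z = y := by simpa using hzy
            exact ⟨rfl, Ne.symm hz⟩
      rw [this, Finset.card_map, Finset.card_sdiff_of_subset (Finset.subset_univ _),
        Finset.card_singleton, Finset.card_univ, Fintype.card_fin]
      omega

/-- **The conjectured inequality `γ_t(G) ≥ 2 π(G)` for regular graphs fails.** For every `t ≥ 4`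
there is a connected `2t`-regular graph `G` with `γ_t(G) ≤ t + 1` and `π(G) ≥ t - 1`, hence with
`γ_t(G) < 2 π(G)` (and `2 π(G) - γ_t(G) ≥ t - 3` is unbounded). -/
theorem result : ∀ t : ℕ, 4 ≤ t →
    ∃ (V : Type) (_ : Fintype V) (_ : DecidableEq V) (G : SimpleGraph V) (_ : DecidableRel G.Adj),
      G.Connected ∧ G.IsRegularOfDegree (2 * t) ∧ gammaT G ≤ t + 1 ∧
        t - 1 ≤ pathCoverNumber G ∧ gammaT G < 2 * pathCoverNumber G := by
  intro t ht
  have h1 := gammaT_le t (by omega)
  have h2 := le_pathCoverNumber t (by omega)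
  exact ⟨Vert t, inferInstance, inferInstance, graph t, inferInstance, graph_connected t,
    graph_regular t (by omega), h1, h2, by omega⟩

end Pool.Agent.Results.MP_f6a359_co.PathCoverCounterexample
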